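import Mathlib

/-!
# Project TG (helper20, MP_97f157_lc), piece L: coefficients by interpolation
-/

set_option autoImplicit false

namespace Pool.Agent.T9h70.TG

open Polynomial

theorem sum_coeff_X_mul {g : ℝ[X]} {B : ℝ} (hB : ∀ N : ℕ, ∑ v ∈ Finset.range N, |g.coeff v| ≤ B)
    (N : ℕ) : ∑ v ∈ Finset.range N, |(X * g).coeff v| ≤ B := by
  cases N with
  | zero => exact hB 0
  | succ M =>
    rw [Finset.sum_range_succ']
    simp only [coeff_X_mul, mul_coeff_zero, coeff_X_zero, zero_mul, abs_zero, add_zero]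
    exact hB M

theorem sum_coeff_prod {h : ℝ} (hh : 0 < h) (x : ℝ) (T : Finset ℝ) (hT : ∀ t ∈ T, 0 ≤ t ∧ t ≤ 2)
    (hd : ∀ t ∈ T, h ≤ |x - t|) (N : ℕ) :
    ∑ v ∈ Finset.range N, |(∏ t ∈ T, Lagrange.basisDivisor x t).coeff v| ≤ (3 / h) ^ T.card := by
  induction T using Finset.induction_on generalizing N with
  | empty =>
    simp only [Finset.prod_empty, Finset.card_empty, pow_zero]
    cases N with
    | zero => simp
    | succ M =>
      rw [Finset.sum_range_succ']
      have : ∑ v ∈ Finset.range M, |(1 : ℝ[X]).coeff (v + 1)| = 0 :=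
        Finset.sum_eq_zero fun v _ => by simp [coeff_one]
      rw [this]
      simp
  | insert t T ht ih =>
    rw [Finset.prod_insert ht, Finset.card_insert_of_notMem ht]
    set g : ℝ[X] := ∏ t ∈ T, Lagrange.basisDivisor x t with hg
    have hB : ∀ N : ℕ, ∑ v ∈ Finset.range N, |g.coeff v| ≤ (3 / h) ^ T.card := fun N =>
      ih (fun s hs => hT s (Finset.mem_insert_of_mem hs))
        (fun s hs => hd s (Finset.mem_insert_of_mem hs)) N
    obtain ⟨ht0, ht2⟩ := hT t (Finset.mem_insert_self t T)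
    have hxt := hd t (Finset.mem_insert_self t T)
    have hco : ∀ v, (Lagrange.basisDivisor x t * g).coeff v =
        (x - t)⁻¹ * ((X * g).coeff v - t * g.coeff v) := by
      intro v
      have : Lagrange.basisDivisor x t * g = C (x - t)⁻¹ * (X * g - C t * g) := by
        rw [Lagrange.basisDivisor]
        ring
      rw [this, coeff_C_mul, coeff_sub, coeff_C_mul]
    have h1 : ∀ v, |(Lagrange.basisDivisor x t * g).coeff v| ≤
        h⁻¹ * (|(X * g).coeff v| + 2 * |g.coeff v|) := by
      intro v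
      rw [hco, abs_mul, abs_inv]
      refine mul_le_mul (inv_anti₀ hh hxt) ?_ (abs_nonneg _) (by positivity)
      refine (abs_sub _ _).trans ?_
      rw [abs_mul, abs_of_nonneg ht0]
      have := abs_nonneg (g.coeff v)
      gcongr
    calc ∑ v ∈ Finset.range N, |(Lagrange.basisDivisor x t * g).coeff v|
        ≤ ∑ v ∈ Finset.range N, h⁻¹ * (|(X * g).coeff v| + 2 * |g.coeff v|) :=
          Finset.sum_le_sum fun v _ => h1 v
      _ = h⁻¹ * (∑ v ∈ Finset.range N, |(X * g).coeff v| +
            2 * ∑ v ∈ Finset.range N, |g.coeff v|) := by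
          rw [← Finset.mul_sum, Finset.sum_add_distrib, ← Finset.mul_sum]
      _ ≤ h⁻¹ * ((3 / h) ^ T.card + 2 * (3 / h) ^ T.card) := by
          have e1 := sum_coeff_X_mul hB N
          have e2 := hB N
          gcongr
      _ = (3 / h) ^ (T.card + 1) := by
          rw [pow_succ]
          field_simp
          ring

theorem lag (p : ℝ[X]) (d : ℕ) (S : Finset ℝ) (h τ : ℝ) (hh : 0 < h)
    (hp : p.natDegree ≤ d) (hS : S.card = d + 1) (hS2 : ∀ s ∈ S, 0 ≤ s ∧ s ≤ 2)
    (hdist : ∀ s ∈ S, ∀ s' ∈ S, s ≠ s' → h ≤ |s - s'|) (hτ : ∀ s ∈ S, |p.eval s| ≤ τ) (v : ℕ) :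
    |p.coeff v| ≤ (d + 1) * (3 / h) ^ d * τ := by
  have hdeg : p.degree < S.card := by
    refine lt_of_le_of_lt degree_le_natDegree ?_
    rw [hS]
    exact_mod_cast Nat.lt_succ_of_le hp
  have hint := Lagrange.eq_interpolate (s := S) (v := id) (f := p) (fun a _ b _ hab => hab) hdeg
  rw [Lagrange.interpolate_apply] at hint
  have hb : ∀ s ∈ S, |(Lagrange.basis S id s).coeff v| ≤ (3 / h) ^ d := by
    intro s hs
    have hcard : (S.erase s).card = d := by
      rw [Finset.card_erase_of_mem hs, hS]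
      rfl
    have h1 := sum_coeff_prod hh s (S.erase s) (fun t ht => hS2 t (Finset.mem_of_mem_erase ht))
      (fun t ht => hdist s hs t (Finset.mem_of_mem_erase ht) (Finset.ne_of_mem_erase ht).symm) (v + 1)
    rw [hcard] at h1
    refine le_trans ?_ h1
    have : Lagrange.basis S id s = ∏ t ∈ S.erase s, Lagrange.basisDivisor s t := rfl
    rw [this]
    exact Finset.single_le_sum (f := fun v => |(∏ t ∈ S.erase s, Lagrange.basisDivisor s t).coeff v|)
      (fun i _ => abs_nonneg _) (Finset.mem_range.2 (Nat.lt_succ_self v))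
  have hco : p.coeff v = ∑ s ∈ S, p.eval s * (Lagrange.basis S id s).coeff v := by
    conv_lhs => rw [hint]
    rw [finsetSum_coeff]
    refine Finset.sum_congr rfl fun s _ => ?_
    rw [coeff_C_mul]
    rfl
  rw [hco]
  calc |∑ s ∈ S, p.eval s * (Lagrange.basis S id s).coeff v|
      ≤ ∑ s ∈ S, |p.eval s * (Lagrange.basis S id s).coeff v| := Finset.abs_sum_le_sum_abs _ _
    _ ≤ ∑ s ∈ S, τ * (3 / h) ^ d := by
        refine Finset.sum_le_sum fun s hs => ?_
        rw [abs_mul]
        exact mul_le_mul (hτ s hs) (hb s hs) (abs_nonneg _) ((abs_nonneg _).trans (hτ s hs))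
    _ = (d + 1) * (3 / h) ^ d * τ := by
        rw [Finset.sum_const, hS, nsmul_eq_mul]
        push_cast
        ring

end Pool.Agent.T9h70.TG
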