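import Pool.Agent.T9h20.TG.Spec
import Pool.Agent.T9h70.TG.LagA

/-!
# Project TG (helper20, MP_97f157_lc), piece L
-/

set_option autoImplicit false

namespace Pool.Agent.T9h70.TG

theorem sLag : Pool.Agent.T9h20.TG.SLag := by
  intro p d S h τ hh hp hS hS2 hdist hτ v
  exact lag p d S h τ hh hp hS hS2 hdist hτ v

end Pool.Agent.T9h70.TG
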