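import Pool.Agent.T9h20.TG.Spec2

/-! Project TG, piece PR: difference of products. -/

set_option autoImplicit false

namespace Pool.Agent.T9h70.TG

open Pool.Agent.T9h20.TG

/-- powers -/
theorem pow_diff {x w A δ : ℝ} (hA : 0 ≤ A) (hδ : 0 ≤ δ) (hx : |x| ≤ A) (hw : |w| ≤ A)
    (hxw : |x - w| ≤ δ * A) (n : ℕ) :
    |x ^ n - w ^ n| ≤ n * δ * A ^ n ∧ |x ^ n| ≤ A ^ n ∧ |w ^ n| ≤ A ^ n := by
  have h1 : |x ^ n| ≤ A ^ n := by rw [abs_pow]; exact pow_le_pow_left₀ (abs_nonneg _) hx n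
  have h2 : |w ^ n| ≤ A ^ n := by rw [abs_pow]; exact pow_le_pow_left₀ (abs_nonneg _) hw n
  refine ⟨?_, h1, h2⟩
  clear h1 h2
  induction n with
  | zero => simp
  | succ n ih =>
    have h1 : |x ^ n| ≤ A ^ n := by rw [abs_pow]; exact pow_le_pow_left₀ (abs_nonneg _) hx n
    have e : x ^ (n + 1) - w ^ (n + 1) = x ^ n * (x - w) + (x ^ n - w ^ n) * w := by ring
    rw [e]
    calc |x ^ n * (x - w) + (x ^ n - w ^ n) * w|
        ≤ |x ^ n * (x - w)| + |(x ^ n - w ^ n) * w| := abs_add_le _ _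
      _ = |x ^ n| * |x - w| + |x ^ n - w ^ n| * |w| := by rw [abs_mul, abs_mul]
      _ ≤ A ^ n * (δ * A) + n * δ * A ^ n * A := by
          refine add_le_add (mul_le_mul h1 hxw (abs_nonneg _) (by positivity))
            (mul_le_mul ih hw (abs_nonneg _) (by positivity))
      _ = ((n + 1 : ℕ) : ℝ) * δ * A ^ (n + 1) := by
          push_cast
          ring

/-- products over a finset -/
theorem prod_diff {q : ℕ} (al : Fin q → ℕ) (x w A : Fin q → ℝ) (δ : ℝ) (hδ : 0 ≤ δ)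
    (h : ∀ j, 0 ≤ A j ∧ |x j| ≤ A j ∧ |w j| ≤ A j ∧ |x j - w j| ≤ δ * A j) (S : Finset (Fin q)) :
    |∏ j ∈ S, x j ^ al j - ∏ j ∈ S, w j ^ al j| ≤ ((∑ j ∈ S, al j : ℕ) : ℝ) * δ * ∏ j ∈ S, A j ^ al j ∧
      |∏ j ∈ S, x j ^ al j| ≤ ∏ j ∈ S, A j ^ al j ∧ |∏ j ∈ S, w j ^ al j| ≤ ∏ j ∈ S, A j ^ al j := by
  induction S using Finset.induction_on with
  | empty => simp
  | insert i S hi ih =>
    obtain ⟨i1, i2, i3⟩ := ih
    obtain ⟨hA, hx, hw, hxw⟩ := h i
    obtain ⟨p1, p2, p3⟩ := pow_diff hA hδ hx hw hxw (al i)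
    rw [Finset.prod_insert hi, Finset.prod_insert hi, Finset.prod_insert hi, Finset.sum_insert hi]
    set X := ∏ j ∈ S, x j ^ al j
    set W := ∏ j ∈ S, w j ^ al j
    set M := ∏ j ∈ S, A j ^ al j
    have hM0 : 0 ≤ M := (abs_nonneg _).trans i2
    have hAp : 0 ≤ A i ^ al i := by positivity
    refine ⟨?_, ?_, ?_⟩
    · have e : x i ^ al i * X - w i ^ al i * W =
          x i ^ al i * (X - W) + (x i ^ al i - w i ^ al i) * W := by ring
      rw [e]
      calc |x i ^ al i * (X - W) + (x i ^ al i - w i ^ al i) * W|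
          ≤ |x i ^ al i * (X - W)| + |(x i ^ al i - w i ^ al i) * W| := abs_add_le _ _
        _ = |x i ^ al i| * |X - W| + |x i ^ al i - w i ^ al i| * |W| := by
            rw [abs_mul, abs_mul]
        _ ≤ A i ^ al i * (((∑ j ∈ S, al j : ℕ) : ℝ) * δ * M) + al i * δ * A i ^ al i * M := by
            refine add_le_add (mul_le_mul p2 i1 (abs_nonneg _) hAp)
              (mul_le_mul p1 i3 (abs_nonneg _) (by positivity))
        _ = ((al i + ∑ j ∈ S, al j : ℕ) : ℝ) * δ * (A i ^ al i * M) := by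
            push_cast
            ring
    · rw [abs_mul]
      exact mul_le_mul p2 i2 (abs_nonneg _) hAp
    · rw [abs_mul]
      exact mul_le_mul p3 i3 (abs_nonneg _) hAp

theorem sProd : SProd := by
  intro q m al x w M T δ hT hδ hal h
  obtain ⟨h1, -, -⟩ := prod_diff al x w (fun j => T * M j) δ hδ
    (fun j => ⟨mul_nonneg (by linarith) (h j).1, (h j).2.1, (h j).2.2.1, (h j).2.2.2⟩) Finset.univ
  refine h1.trans ?_
  have e : ∏ j, (T * M j) ^ al j = T ^ (∑ j, al j) * ∏ j, M j ^ al j := by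
    rw [← Finset.prod_pow_eq_pow_sum, ← Finset.prod_mul_distrib]
    exact Finset.prod_congr rfl fun j _ => mul_pow _ _ _
  rw [e]
  have hM0 : 0 ≤ ∏ j, M j ^ al j := Finset.prod_nonneg fun j _ => pow_nonneg (h j).1 _
  have hTp : T ^ (∑ j, al j) ≤ T ^ m := pow_le_pow_right₀ hT hal
  have hsm : ((∑ j, al j : ℕ) : ℝ) ≤ m := by exact_mod_cast hal
  calc ((∑ j, al j : ℕ) : ℝ) * δ * (T ^ (∑ j, al j) * ∏ j, M j ^ al j)
      ≤ m * δ * (T ^ m * ∏ j, M j ^ al j) := by gcongr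
    _ = m * δ * T ^ m * ∏ j, M j ^ al j := by ring

end Pool.Agent.T9h70.TG
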